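import Pool.Agent.Q7.LK.Stm

/-!
# Project LK, job BAS: elementary properties of `Lpw`, `vl`, `sy`
-/

set_option autoImplicit false

namespace Pool.Agent.Q277.LK

open NumberField IsDedekindDomain WithZero Pool.Agent.Q7.LK

variable {F : Type} [Field F] [NumberField F] (v : HeightOneSpectrum (𝓞 F))

theorem val_ne {a : F} (ha : a ≠ 0) : v.valuation F a ≠ 0 := (Valuation.ne_zero_iff _).2 ha

theorem val_nat (n : ℕ) : v.valuation F (n : F) ≤ 1 := by
  have h : v.valuation F (algebraMap (𝓞 F) F (n : 𝓞 F)) ≤ 1 := v.valuation_le_one (K := F) (n : 𝓞 F)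
  rwa [map_natCast] at h

theorem exp_neg_le_one (n : ℕ) : (exp (-(n : ℤ)) : ℤᵐ⁰) ≤ 1 := by
  rw [← exp_zero, exp_le_exp]
  omega

theorem val_eq_one {y : F} (h : v.valuation F (y - 1) < 1) : v.valuation F y = 1 := by
  have h1 := Valuation.map_one_add_of_lt (v := v.valuation F) h
  rwa [add_sub_cancel] at h1

theorem lt_one_le {y : ℤᵐ⁰} (h : y < 1) : y ≤ exp (-1 : ℤ) := by
  by_cases hy : y = 0
  · rw [hy]; exact zero_le
  · rw [← exp_log hy, exp_le_exp]
    rw [← exp_log hy, ← exp_zero, exp_lt_exp] at h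
    omega

variable (p : ℕ) [hp : Fact p.Prime]

omit hp in
theorem lpw_val {a : F} (h : Lpw p v a) : ∃ x : F, v.valuation F (a * x ^ p) = 1 := by
  obtain ⟨x, hx⟩ := h 0
  exact ⟨x, val_eq_one v (hx.trans_le (exp_neg_le_one 0))⟩

/-- the order is divisible by `p` -/
theorem vl_zero_iff (a : F) : vl p v a = 0 ↔ (p : ℤ) ∣ log (v.valuation F a) := by
  rw [vl, neg_eq_zero, ZMod.intCast_zmod_eq_zero_iff_dvd]

theorem ne_of_val {a x : F} (hx : v.valuation F (a * x ^ p) = 1) : a ≠ 0 ∧ x ≠ 0 := by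
  constructor
  · rintro rfl
    rw [zero_mul, map_zero] at hx
    exact zero_ne_one hx
  · rintro rfl
    rw [zero_pow hp.out.ne_zero, mul_zero, map_zero] at hx
    exact zero_ne_one hx

theorem p1 {a : F} (h : Lpw p v a) : a ≠ 0 ∧ vl p v a = 0 := by
  obtain ⟨x, hx⟩ := lpw_val v p h
  obtain ⟨ha, hx0⟩ := ne_of_val v p hx
  refine ⟨ha, ?_⟩
  rw [vl_zero_iff]
  have h1 := congrArg log hx
  rw [map_mul, map_pow, log_mul (val_ne v ha) (pow_ne_zero p (val_ne v hx0)), log_pow, log_one] at h1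
  simp only [nsmul_eq_mul] at h1
  exact ⟨-log (v.valuation F x), by linarith⟩

omit hp in
theorem p2 {a b : F} (ha : Lpw p v a) (hb : Lpw p v b) : Lpw p v (a * b) := by
  intro n
  obtain ⟨x, hx⟩ := ha n
  obtain ⟨z, hz⟩ := hb n
  refine ⟨x * z, ?_⟩
  have h1 : v.valuation F (b * z ^ p) = 1 := val_eq_one v (hz.trans_le (exp_neg_le_one n))
  have e : a * b * (x * z) ^ p - 1 = (a * x ^ p - 1) * (b * z ^ p) + (b * z ^ p - 1) := by
    rw [mul_pow]; ring
  rw [e]
  refine lt_of_le_of_lt (Valuation.map_add _ _ _) (max_lt ?_ hz)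
  rw [map_mul, h1, mul_one]
  exact hx

omit hp in
theorem p3 {a : F} (ha : a ≠ 0) : Lpw p v (a ^ p) := by
  intro n
  refine ⟨a⁻¹, ?_⟩
  have e : a ^ p * a⁻¹ ^ p - 1 = 0 := by
    rw [← mul_pow, mul_inv_cancel₀ ha, one_pow, sub_self]
  rw [e, map_zero]
  exact exp_pos

theorem p4 {a : F} (h : Lpw p v a) : Lpw p v a⁻¹ := by
  have ha := (p1 v p h).1
  intro n
  obtain ⟨x, hx⟩ := h n
  have h1 : v.valuation F (a * x ^ p) = 1 := val_eq_one v (hx.trans_le (exp_neg_le_one n))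
  obtain ⟨-, hx0⟩ := ne_of_val v p h1
  refine ⟨x⁻¹, ?_⟩
  have e : a⁻¹ * x⁻¹ ^ p - 1 = -(a * x ^ p - 1) * (a * x ^ p)⁻¹ := by
    have hxp : x ^ p ≠ 0 := pow_ne_zero p hx0
    rw [inv_pow]
    field_simp
    ring
  rw [e, map_mul, Valuation.map_neg, map_inv₀, h1, inv_one, mul_one]
  exact hx

theorem p5 {a b : F} (ha : a ≠ 0) (hb : b ≠ 0) : vl p v (a * b) = vl p v a + vl p v b := by
  rw [vl, vl, vl, map_mul, log_mul (val_ne v ha) (val_ne v hb)]
  push_cast
  ring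

theorem expand {x : F} (hx : v.valuation F x ≤ 1) (n : ℕ) :
    ∃ g : F, v.valuation F g ≤ 1 ∧ (1 + x) ^ n = 1 + n * x + x ^ 2 * g := by
  induction n with
  | zero => exact ⟨0, by rw [map_zero]; exact zero_le, by simp⟩
  | succ n ih =>
    obtain ⟨g, hg, e⟩ := ih
    refine ⟨n + g + x * g, ?_, ?_⟩
    · refine (Valuation.map_add _ _ _).trans (max_le ((Valuation.map_add _ _ _).trans
        (max_le (val_nat v n) hg)) ?_)
      rw [map_mul]
      exact mul_le_one' hx hg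
    · rw [pow_succ, e]
      push_cast
      ring

theorem p6 {a x : F} (h : v.valuation F (a * x ^ p - 1) < v.valuation F ((p : F) ^ 2)) : Lpw p v a := by
  have hp0 : (p : F) ≠ 0 := by exact_mod_cast hp.out.ne_zero
  have hp2 : (p : F) ^ 2 ≠ 0 := pow_ne_zero 2 hp0
  have hvp := val_nat (F := F) v p
  have hvp2 : v.valuation F ((p : F) ^ 2) ≤ 1 := by
    rw [map_pow]; exact pow_le_one' hvp 2
  have key : ∀ k : ℕ, ∃ x m : F, a * x ^ p = 1 + (p : F) ^ 2 * m ∧
      v.valuation F m ≤ exp (-((k : ℤ) + 1)) := by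
    intro k
    induction k with
    | zero =>
      refine ⟨x, (a * x ^ p - 1) / (p : F) ^ 2, ?_, ?_⟩
      · rw [mul_div_cancel₀ _ hp2]
        ring
      · rw [map_div₀]
        have h1 : v.valuation F (a * x ^ p - 1) / v.valuation F ((p : F) ^ 2) < 1 :=
          (div_lt_one₀ (zero_lt_iff.2 (val_ne v hp2))).2 h
        have h2 := lt_one_le h1
        simpa using h2
    | succ k ih =>
      obtain ⟨x, m, hx, hm⟩ := ih
      have hm1 : v.valuation F m ≤ 1 := by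
        refine hm.trans ?_
        rw [← exp_zero, exp_le_exp]
        omega
      have hpm : v.valuation F (-((p : F) * m)) ≤ 1 := by
        rw [Valuation.map_neg, map_mul]; exact mul_le_one' hvp hm1
      obtain ⟨g, hg, e⟩ := expand v hpm p
      refine ⟨x * (1 + -((p : F) * m)), m ^ 2 * (g - (p : F) ^ 2 + (p : F) ^ 2 * m * g), ?_, ?_⟩
      · rw [mul_pow, ← mul_assoc, hx, e]
        ring
      · have h1 : v.valuation F (g - (p : F) ^ 2 + (p : F) ^ 2 * m * g) ≤ 1 := by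
          refine (Valuation.map_add _ _ _).trans (max_le ?_ ?_)
          · exact (Valuation.map_sub _ _ _).trans (max_le hg hvp2)
          · rw [map_mul, map_mul]; exact mul_le_one' (mul_le_one' hvp2 hm1) hg
        rw [map_mul, map_pow]
        calc v.valuation F m ^ 2 * v.valuation F (g - (p : F) ^ 2 + (p : F) ^ 2 * m * g)
            ≤ exp (-((k : ℤ) + 1)) ^ 2 * 1 :=
              mul_le_mul' (pow_le_pow_left' hm 2) h1
          _ ≤ exp (-(((k + 1 : ℕ) : ℤ) + 1)) := by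
              rw [mul_one, ← exp_nsmul, exp_le_exp]
              simp only [nsmul_eq_mul]
              push_cast
              omega
  intro n
  obtain ⟨x, m, hx, hm⟩ := key n
  refine ⟨x, ?_⟩
  rw [hx, add_sub_cancel_left, map_mul]
  calc v.valuation F ((p : F) ^ 2) * v.valuation F m ≤ 1 * exp (-((n : ℤ) + 1)) :=
        mul_le_mul' hvp2 hm
    _ < exp (-(n : ℤ)) := by
        rw [one_mul, exp_lt_exp]
        omega

theorem unit_rep {a : F} (ha : a ≠ 0) (h : vl p v a = 0) :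
    ∃ y : F, v.valuation F (a * y ^ p) = 1 := by
  rw [vl_zero_iff] at h
  obtain ⟨i, hi⟩ := h
  obtain ⟨y, hy⟩ := v.valuation_surjective F (exp (-i))
  refine ⟨y, ?_⟩
  rw [map_mul, map_pow, hy, ← exp_log (val_ne v ha), hi, ← exp_nsmul, ← exp_add, ← exp_zero]
  congr 1
  simp only [nsmul_eq_mul]
  ring

theorem int_rep {a : F} (ha : v.valuation F a = 1) :
    ∃ α : 𝓞 F, v.valuation F (algebraMap (𝓞 F) F α - a) < 1 ∧ α ∉ v.asIdeal := by
  obtain ⟨α, hα⟩ := v.exists_valuation_sub_lt_of_integer (K := F) ha.le 1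
  rw [Units.val_one] at hα
  refine ⟨α, hα, ?_⟩
  intro hmem
  rw [← v.valuation_lt_one_iff_mem (K := F)] at hmem
  have h1 : v.valuation F a < 1 := by
    have e : a = algebraMap (𝓞 F) F α - (algebraMap (𝓞 F) F α - a) := by ring
    rw [e]
    exact lt_of_le_of_lt (Valuation.map_sub _ _ _) (max_lt hmem hα)
  rw [ha] at h1
  exact lt_irrefl _ h1

/-! ### Congruences modulo `v` -/

/-- congruence modulo `v` -/
def Cg (a b : F) : Prop := v.valuation F (a - b) < 1

theorem cg_symm {a b : F} (h : Cg v a b) : Cg v b a := by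
  have : b - a = -(a - b) := by ring
  rw [Cg, this, Valuation.map_neg]
  exact h

theorem cg_trans {a b c : F} (h : Cg v a b) (h' : Cg v b c) : Cg v a c := by
  have : a - c = (a - b) + (b - c) := by ring
  rw [Cg, this]
  exact lt_of_le_of_lt (Valuation.map_add _ _ _) (max_lt h h')

theorem cg_le {a b : F} (h : Cg v a b) (hb : v.valuation F b ≤ 1) : v.valuation F a ≤ 1 := by
  have : a = (a - b) + b := by ring
  rw [this]
  exact (Valuation.map_add _ _ _).trans (max_le h.le hb)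

theorem cg_mul {a a' b b' : F} (h : Cg v a a') (h' : Cg v b b') (ha : v.valuation F a ≤ 1)
    (hb : v.valuation F b' ≤ 1) : Cg v (a * b) (a' * b') := by
  have : a * b - a' * b' = a * (b - b') + b' * (a - a') := by ring
  rw [Cg, this]
  refine lt_of_le_of_lt (Valuation.map_add _ _ _) (max_lt ?_ ?_)
  · rw [map_mul]
    exact lt_of_le_of_lt (mul_le_of_le_one_left' ha) h'
  · rw [map_mul]
    exact lt_of_le_of_lt (mul_le_of_le_one_left' hb) h

theorem cg_pow {a b : F} (h : Cg v a b) (ha : v.valuation F a ≤ 1) (hb : v.valuation F b ≤ 1) (n : ℕ) :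
    Cg v (a ^ n) (b ^ n) := by
  induction n with
  | zero => rw [pow_zero, pow_zero, Cg, sub_self, map_zero]; exact zero_lt_one
  | succ n ih =>
    rw [pow_succ, pow_succ]
    refine cg_mul v ih h ?_ hb
    rw [map_pow]
    exact pow_le_one' ha n

theorem cg_iff (α β : 𝓞 F) : Cg v (algebraMap (𝓞 F) F α) (algebraMap (𝓞 F) F β) ↔
    Ideal.Quotient.mk v.asIdeal α = Ideal.Quotient.mk v.asIdeal β := by
  rw [Cg, ← map_sub, v.valuation_lt_one_iff_mem (K := F), Ideal.Quotient.eq]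

theorem val_alg (α : 𝓞 F) : v.valuation F (algebraMap (𝓞 F) F α) ≤ 1 := v.valuation_le_one (K := F) α

section finite

theorem field_facts (k : Type) [Field k] [Finite k] (z : k) (hz : IsPrimitiveRoot z p) :
    p ∣ Nat.card k - 1 ∧ (∀ a : k, a ≠ 0 → a ^ (Nat.card k - 1) = 1) ∧
    (∀ a : k, a ≠ 0 → ∃ i < p, a ^ ((Nat.card k - 1) / p) = z ^ i) ∧
    (∀ a : k, a ≠ 0 → a ^ ((Nat.card k - 1) / p) = 1 → ∃ c : k, c ≠ 0 ∧ a = c ^ p) := by
  classical
  have : Fintype k := Fintype.ofFinite k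
  have hp0 : 0 < p := hp.out.pos
  have hNk : Nat.card k = Fintype.card k := Nat.card_eq_fintype_card
  have hunits : Fintype.card kˣ = Nat.card k - 1 := by rw [Fintype.card_units, hNk]
  have hferm : ∀ a : k, a ≠ 0 → a ^ (Nat.card k - 1) = 1 := by
    intro a ha
    rw [hNk]
    exact FiniteField.pow_card_sub_one_eq_one a ha
  have hz0 : z ≠ 0 := hz.ne_zero hp.out.ne_zero
  have hdvd : p ∣ Nat.card k - 1 := hz.dvd_of_pow_eq_one _ (hferm z hz0)
  refine ⟨hdvd, hferm, ?_, ?_⟩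
  · intro a ha
    have h1 : (a ^ ((Nat.card k - 1) / p)) ^ p = 1 := by
      rw [← pow_mul, Nat.div_mul_cancel hdvd]
      exact hferm a ha
    obtain ⟨i, hi, e⟩ := hz.eq_pow_of_pow_eq_one h1
    exact ⟨i, hi, e.symm⟩
  · intro a ha h1
    obtain ⟨g, hg⟩ := IsCyclic.exists_generator (α := kˣ)
    obtain ⟨j, hj⟩ := Subgroup.mem_zpowers_iff.1 (hg (Units.mk0 a ha))
    have hord : orderOf g = Nat.card k - 1 := by
      rw [← hunits, ← Nat.card_eq_fintype_card]
      exact orderOf_eq_card_of_forall_mem_zpowers hg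
    have hpos : 0 < Nat.card k - 1 := by rw [← hunits]; exact Fintype.card_pos
    obtain ⟨M, hM⟩ := hdvd
    have hM0 : 0 < M := by
      rcases Nat.eq_zero_or_pos M with h | h
      · rw [h, mul_zero] at hM; omega
      · exact h
    have hdiv : (Nat.card k - 1) / p = M := by rw [hM]; exact Nat.mul_div_cancel_left M hp0
    rw [hdiv] at h1
    have h2 : (g ^ j) ^ M = 1 := by
      rw [hj]
      ext
      rw [Units.val_pow_eq_pow_val, Units.val_mk0, Units.val_one]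
      exact h1
    have h3 : g ^ (j * (M : ℤ)) = 1 := by
      rw [zpow_mul, zpow_natCast]
      exact h2
    have h4 : ((orderOf g : ℕ) : ℤ) ∣ j * (M : ℤ) := orderOf_dvd_iff_zpow_eq_one.2 h3
    rw [hord, hM] at h4
    push_cast at h4
    have h5 : (p : ℤ) ∣ j := by
      have hM' : (M : ℤ) ≠ 0 := by exact_mod_cast hM0.ne'
      exact Int.dvd_of_mul_dvd_mul_right hM' h4
    obtain ⟨i, rfl⟩ := h5
    refine ⟨((g ^ i : kˣ) : k), Units.ne_zero _, ?_⟩
    have h6 : Units.mk0 a ha = (g ^ i) ^ p := by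
      rw [← hj, mul_comm (p : ℤ) i, zpow_mul, zpow_natCast]
    have h7 := congrArg (fun u : kˣ => (u : k)) h6
    simpa using h7

/-- Fermat's theorem and the structure of the group of the residue field, for integers -/
theorem res_facts (hd : ¬ Dp p v) (ζ' : 𝓞 F) (hζ : IsPrimitiveRoot ζ' p) :
    p ∣ Ideal.absNorm v.asIdeal - 1 ∧
    (∀ α : 𝓞 F, α ∉ v.asIdeal →
      Ideal.Quotient.mk v.asIdeal (α ^ (Ideal.absNorm v.asIdeal - 1)) = Ideal.Quotient.mk v.asIdeal 1) ∧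
    (∀ α : 𝓞 F, α ∉ v.asIdeal → ∃ i < p,
      Ideal.Quotient.mk v.asIdeal (α ^ ((Ideal.absNorm v.asIdeal - 1) / p)) =
        Ideal.Quotient.mk v.asIdeal (ζ' ^ i)) ∧
    (∀ i j : ℕ, i < p → j < p → Ideal.Quotient.mk v.asIdeal (ζ' ^ i) =
      Ideal.Quotient.mk v.asIdeal (ζ' ^ j) → i = j) ∧
    (∀ α : 𝓞 F, α ∉ v.asIdeal →
      Ideal.Quotient.mk v.asIdeal (α ^ ((Ideal.absNorm v.asIdeal - 1) / p)) =
        Ideal.Quotient.mk v.asIdeal 1 →
      ∃ γ : 𝓞 F, γ ∉ v.asIdeal ∧ Ideal.Quotient.mk v.asIdeal α = Ideal.Quotient.mk v.asIdeal (γ ^ p)) := by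
  have hfin : Finite (𝓞 F ⧸ v.asIdeal) := Ideal.finiteQuotientOfFreeOfNeBot v.asIdeal v.ne_bot
  have hmax : v.asIdeal.IsMaximal := v.isMaximal
  let _ : Field (𝓞 F ⧸ v.asIdeal) := Ideal.Quotient.field v.asIdeal
  have hNk : Ideal.absNorm v.asIdeal = Nat.card (𝓞 F ⧸ v.asIdeal) := by
    rw [Ideal.absNorm_apply, Submodule.cardQuot_apply]
  have hζp : (Ideal.Quotient.mk v.asIdeal ζ') ^ p = 1 := by rw [← map_pow, hζ.pow_eq_one, map_one]
  have hζ1 : Ideal.Quotient.mk v.asIdeal ζ' ≠ 1 := by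
    intro h
    have h1 : ∑ i ∈ Finset.range p, ζ' ^ i = 0 := hζ.geom_sum_eq_zero hp.out.one_lt
    have h2 := congrArg (Ideal.Quotient.mk v.asIdeal) h1
    rw [map_sum, map_zero] at h2
    simp only [map_pow, h, one_pow, Finset.sum_const, Finset.card_range, nsmul_eq_mul, mul_one] at h2
    apply hd
    rw [Dp, ← Ideal.Quotient.eq_zero_iff_mem, map_natCast]
    exact h2
  have hprim : IsPrimitiveRoot (Ideal.Quotient.mk v.asIdeal ζ') p := by
    rw [IsPrimitiveRoot.iff_orderOf]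
    exact orderOf_eq_prime hζp hζ1
  have hne : ∀ α : 𝓞 F, α ∉ v.asIdeal → Ideal.Quotient.mk v.asIdeal α ≠ 0 := fun α hα h =>
    hα (Ideal.Quotient.eq_zero_iff_mem.1 h)
  obtain ⟨f1, f2, f3, f4⟩ := field_facts p (𝓞 F ⧸ v.asIdeal) (Ideal.Quotient.mk v.asIdeal ζ') hprim
  rw [← hNk] at f1 f2 f3 f4
  refine ⟨f1, ?_, ?_, ?_, ?_⟩
  · intro α hα
    rw [map_pow, map_one]
    exact f2 _ (hne α hα)
  · intro α hα
    obtain ⟨i, hi, e⟩ := f3 _ (hne α hα)
    exact ⟨i, hi, by rw [map_pow, map_pow]; exact e⟩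
  · intro i j hi hj e
    rw [map_pow, map_pow] at e
    exact hprim.pow_inj hi hj e
  · intro α hα e
    rw [map_pow, map_one] at e
    obtain ⟨c, hc, e2⟩ := f4 _ (hne α hα) e
    obtain ⟨γ, rfl⟩ := Ideal.Quotient.mk_surjective c
    refine ⟨γ, ?_, ?_⟩
    · intro h
      exact hc (Ideal.Quotient.eq_zero_iff_mem.2 h)
    · rw [map_pow]; exact e2

end finite

section sym

variable {p} (hd : ¬ Dp p v) {ζ : F} (hζ : IsPrimitiveRoot ζ p)

include hd hζ

/-- the facts in terms of the valuation -/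
theorem val_facts :
    p ∣ Ideal.absNorm v.asIdeal - 1 ∧
    (∀ b : F, v.valuation F b = 1 → Cg v (b ^ (Ideal.absNorm v.asIdeal - 1)) 1) ∧
    (∀ b : F, v.valuation F b = 1 → ∃ s : ZMod p,
      Cg v (b ^ ((Ideal.absNorm v.asIdeal - 1) / p)) (ζ ^ s.val)) ∧
    (∀ s t : ZMod p, Cg v (ζ ^ s.val) (ζ ^ t.val) → s = t) ∧
    (∀ b : F, v.valuation F b = 1 → Cg v (b ^ ((Ideal.absNorm v.asIdeal - 1) / p)) 1 →
      ∃ c : F, v.valuation F c = 1 ∧ Cg v b (c ^ p)) ∧ v.valuation F ζ ≤ 1 := by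
  have hp0 : 0 < p := hp.out.pos
  have : NeZero p := ⟨hp0.ne'⟩
  obtain ⟨ζ', hζe, hζ'⟩ : ∃ ζ' : 𝓞 F, algebraMap (𝓞 F) F ζ' = ζ ∧ IsPrimitiveRoot ζ' p :=
    ⟨hζ.toInteger, rfl, hζ.toInteger_isPrimitiveRoot⟩
  obtain ⟨f1, f2, f3, f4, f5⟩ := res_facts v p hd ζ' hζ'
  have hpw : ∀ (b : F) (β : 𝓞 F), v.valuation F b = 1 → Cg v (algebraMap (𝓞 F) F β) b → ∀ n : ℕ,
      Cg v (b ^ n) (algebraMap (𝓞 F) F (β ^ n)) := by
    intro b β hb h n
    rw [map_pow]
    exact cg_pow v (cg_symm v h) hb.le (val_alg v β) n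
  refine ⟨f1, ?_, ?_, ?_, ?_, ?_⟩
  · intro b hb
    obtain ⟨β, hβ, hβ0⟩ := int_rep v hb
    refine cg_trans v (hpw b β hb hβ _) ?_
    have := (cg_iff v _ _).2 (f2 β hβ0)
    rwa [map_one] at this
  · intro b hb
    obtain ⟨β, hβ, hβ0⟩ := int_rep v hb
    obtain ⟨i, hi, e⟩ := f3 β hβ0
    refine ⟨(i : ZMod p), cg_trans v (hpw b β hb hβ _) ?_⟩
    have := (cg_iff v _ _).2 e
    rw [map_pow _ ζ', hζe] at this
    rwa [ZMod.val_natCast_of_lt hi]
  · intro s t h
    rw [← hζe, ← map_pow, ← map_pow, cg_iff] at h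
    exact ZMod.val_injective p (f4 _ _ (ZMod.val_lt s) (ZMod.val_lt t) h)
  · intro b hb h
    obtain ⟨β, hβ, hβ0⟩ := int_rep v hb
    have h1 : Ideal.Quotient.mk v.asIdeal (β ^ ((Ideal.absNorm v.asIdeal - 1) / p)) =
        Ideal.Quotient.mk v.asIdeal 1 := by
      rw [← cg_iff, map_one]
      exact cg_trans v (cg_symm v (hpw b β hb hβ _)) h
    obtain ⟨γ, hγ0, e⟩ := f5 β hβ0 h1
    refine ⟨algebraMap (𝓞 F) F γ, (v.valuation_eq_one_iff_notMem (K := F)).2 hγ0, ?_⟩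
    rw [← map_pow]
    exact cg_trans v (cg_symm v hβ) ((cg_iff v _ _).2 e)
  · rw [← hζe]
    exact val_alg v ζ'

/-- uniqueness of the symbol -/
theorem sy_unique {a : F} {s t : ZMod p} (hs : Sy p ζ v a s) (ht : Sy p ζ v a t) : s = t := by
  obtain ⟨f1, f2, f3, f4, f5, hζ1⟩ := val_facts v hd hζ
  obtain ⟨x, hx, hxs⟩ := hs
  obtain ⟨z, hz, hzt⟩ := ht
  obtain ⟨ha, hx0⟩ := ne_of_val v p hx
  obtain ⟨-, hz0⟩ := ne_of_val v p hz
  have hvx : v.valuation F (z / x) = 1 := by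
    have h1 : v.valuation F (z / x) ^ p = 1 := by
      rw [← map_pow]
      have : (z / x) ^ p = (a * z ^ p) / (a * x ^ p) := by
        rw [div_pow, mul_div_mul_left _ _ ha]
      rw [this, map_div₀, hz, hx, div_one]
    exact (pow_eq_one_iff.1 h1).resolve_right hp.out.ne_zero
  apply f4
  refine cg_trans v (cg_symm v hxs) (cg_trans v ?_ hzt)
  have e : (a * z ^ p) ^ ((Ideal.absNorm v.asIdeal - 1) / p) =
      (a * x ^ p) ^ ((Ideal.absNorm v.asIdeal - 1) / p) * (z / x) ^ (Ideal.absNorm v.asIdeal - 1) := by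
    have e1 : a * z ^ p = (a * x ^ p) * (z / x) ^ p := by
      rw [div_pow]
      field_simp
    have e2 : (z / x) ^ (Ideal.absNorm v.asIdeal - 1) =
        ((z / x) ^ p) ^ ((Ideal.absNorm v.asIdeal - 1) / p) := by
      rw [← pow_mul, Nat.mul_div_cancel' f1]
    rw [e1, e2, mul_pow]
  rw [e]
  have h1 := cg_mul v (a := (a * x ^ p) ^ ((Ideal.absNorm v.asIdeal - 1) / p))
    (a' := (a * x ^ p) ^ ((Ideal.absNorm v.asIdeal - 1) / p)) (b := 1)
    (b' := (z / x) ^ (Ideal.absNorm v.asIdeal - 1))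
    (by rw [Cg, sub_self, map_zero]; exact zero_lt_one) (cg_symm v (f2 _ hvx))
    (by rw [map_pow, hx, one_pow]) (by rw [map_pow, hvx, one_pow])
  rwa [mul_one] at h1

/-- existence of the symbol -/
theorem sy_exists {a : F} (ha : a ≠ 0) (h : vl p v a = 0) : ∃ s, Sy p ζ v a s := by
  obtain ⟨f1, f2, f3, f4, f5, hζ1⟩ := val_facts v hd hζ
  obtain ⟨x, hx⟩ := unit_rep v p ha h
  obtain ⟨s, hs⟩ := f3 _ hx
  exact ⟨s, x, hx, hs⟩

theorem sy_spec {a : F} (ha : a ≠ 0) (h : vl p v a = 0) (s : ZMod p) :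
    Sy p ζ v a s ↔ s = sy p ζ v a := by
  have hex := sy_exists v hd hζ ha h
  have h1 : Sy p ζ v a (sy p ζ v a) := by
    rw [sy, dif_pos hex]
    exact hex.choose_spec
  constructor
  · intro hs
    exact sy_unique v hd hζ hs h1
  · rintro rfl
    exact h1

theorem sy_add {a b : F} {s t : ZMod p} (hs : Sy p ζ v a s) (ht : Sy p ζ v b t) :
    Sy p ζ v (a * b) (s + t) := by
  obtain ⟨f1, f2, f3, f4, f5, hζ1⟩ := val_facts v hd hζ
  obtain ⟨x, hx, hxs⟩ := hs
  obtain ⟨z, hz, hzt⟩ := ht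
  have e : a * b * (x * z) ^ p = (a * x ^ p) * (b * z ^ p) := by rw [mul_pow]; ring
  refine ⟨x * z, by rw [e, map_mul, hx, hz, mul_one], ?_⟩
  rw [e, mul_pow]
  have e2 : ζ ^ (s + t).val = ζ ^ s.val * ζ ^ t.val := by
    rw [ZMod.val_add, ← pow_add]
    exact (pow_eq_pow_mod _ hζ.pow_eq_one).symm
  rw [e2]
  refine cg_mul v hxs hzt ?_ ?_
  · rw [map_pow, hx, one_pow]
  · rw [map_pow]; exact pow_le_one' hζ1 _

theorem sy_zero_iff {a : F} : Sy p ζ v a 0 ↔ Lpw p v a := by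
  obtain ⟨f1, f2, f3, f4, f5, hζ1⟩ := val_facts v hd hζ
  have hvp : v.valuation F ((p : F) ^ 2) = 1 := by
    have h4 : v.valuation F (algebraMap (𝓞 F) F (p : 𝓞 F)) = 1 :=
      (v.valuation_eq_one_iff_notMem (K := F)).2 hd
    rw [map_natCast] at h4
    rw [map_pow, h4, one_pow]
  constructor
  · rintro ⟨x, hx, h⟩
    rw [ZMod.val_zero, pow_zero] at h
    obtain ⟨c, hc, hbc⟩ := f5 _ hx h
    have hc0 : c ≠ 0 := by
      rintro rfl
      rw [map_zero] at hc
      exact zero_ne_one hc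
    refine p6 v p (x := x / c) ?_
    rw [hvp]
    have e : a * (x / c) ^ p - 1 = (a * x ^ p - c ^ p) * (c ^ p)⁻¹ := by
      have hcp : c ^ p ≠ 0 := pow_ne_zero p hc0
      rw [div_pow]
      field_simp
    rw [e, map_mul, map_inv₀, map_pow, hc, one_pow, inv_one, mul_one]
    exact hbc
  · intro h
    obtain ⟨x, hx⟩ := h 0
    have hx1 : Cg v (a * x ^ p) 1 := hx.trans_le (exp_neg_le_one 0)
    have hx2 : v.valuation F (a * x ^ p) = 1 := val_eq_one v hx1
    refine ⟨x, hx2, ?_⟩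
    rw [ZMod.val_zero, pow_zero]
    have := cg_pow v hx1 hx2.le (by rw [map_one]) ((Ideal.absNorm v.asIdeal - 1) / p)
    rwa [one_pow] at this

end sym

theorem bas : S_BAS := by
  intro p hp F _ _ v
  refine ⟨fun a h => p1 v p h, fun a b ha hb => p2 v p ha hb, fun a ha => p3 v p ha,
    fun a h => p4 v p h, fun a b ha hb => p5 v p ha hb, fun a x h => p6 v p h, ?_⟩
  intro hd ζ hζ
  refine ⟨(val_facts v hd hζ).1, fun a ha h s => sy_spec v hd hζ ha h s, ?_, ?_⟩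
  · intro a b ha hb hva hvb
    have h1 := (sy_spec v hd hζ ha hva _).2 rfl
    have h2 := (sy_spec v hd hζ hb hvb _).2 rfl
    have hab : vl p v (a * b) = 0 := by rw [p5 v p ha hb, hva, hvb, add_zero]
    exact ((sy_spec v hd hζ (mul_ne_zero ha hb) hab _).1 (sy_add v hd hζ h1 h2)).symm
  · intro a ha hva
    rw [← sy_zero_iff v hd hζ, sy_spec v hd hζ ha hva]
    exact eq_comm

end Pool.Agent.Q277.LK
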