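import Pool.Agent.Q7.LK.Stm

/-!
# Project LK, job COUNT: the mean number of solutions of the tables
-/

set_option autoImplicit false

namespace Pool.Agent.Q277.LK.COUNT

open Finset Pool.Agent.Q7.LK

section

variable {p : ℕ} {f k : ℕ}

theorem dot_add_left (a b c : Fin f → ZMod p) : dot (a + b) c = dot a c + dot b c := by
  simp [dot, add_mul, Finset.sum_add_distrib]

theorem dot_single (l : Fin f) (s : ZMod p) (c : Fin f → ZMod p) :
    dot (Pi.single l s) c = s * c l := by
  unfold dot
  rw [Finset.sum_eq_single l]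
  · simp
  · intro b _ hb
    simp [Pi.single_eq_of_ne hb]
  · intro h; exact absurd (Finset.mem_univ l) h

/-- counting by an injection -/
theorem card_mul_le {X S Z : Type*} [DecidableEq X] [DecidableEq S] [DecidableEq Z] [Fintype S] (Y T : Finset X)
    (U : Finset Z) (m : X → S → X) (r : S → Z) (hm : ∀ y ∈ Y, ∀ s, m y s ∈ T) (hr : ∀ s, r s ∈ U)
    (hi : ∀ y ∈ Y, ∀ y' ∈ Y, ∀ s s', m y s = m y' s' → r s = r s' → s = s')
    (hi2 : ∀ y y' s, m y s = m y' s → y = y') :
    Y.card * Fintype.card S ≤ T.card * U.card := by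
  classical
  rw [← Finset.card_univ (α := S), ← Finset.card_product, ← Finset.card_product]
  apply Finset.card_le_card_of_injOn (fun p => (m p.1 p.2, r p.2))
  · intro p hp
    simp only [Finset.coe_product, Set.mem_prod, Finset.mem_coe] at hp ⊢
    exact ⟨hm _ hp.1 _, hr _⟩
  · intro p hp p' hp' h
    simp only [Finset.coe_product, Set.mem_prod, Finset.mem_coe] at hp hp'
    simp only [Prod.mk.injEq] at h
    have h1 := hi _ hp.1 _ hp'.1 _ _ h.1 h.2
    have h2 : p.1 = p'.1 := by
      apply hi2 p.1 p'.1 p.2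
      rw [h.1, h1]
    exact Prod.ext h2 h1

end

section

variable {p : ℕ} [hp : Fact p.Prime] {f k : ℕ}

theorem card_S : Fintype.card (Fin k → ZMod p) = p ^ k := by
  simp [ZMod.card]

/-- the first vectors of a table changed -/
def mvA (z : Fin k → ZMod p) (o : Fin k) (l : Fin f) (τ : Tab p f k) (s : Fin k → ZMod p) : Tab p f k :=
  (fun j => τ.1 j + if j = o then Pi.single l (-(z o)⁻¹ * ∑ i ∈ univ.erase o, z i * s i) else Pi.single l (s j),
    τ.2)

theorem sum_mvA (z : Fin k → ZMod p) (hz : ∀ i, z i ≠ 0) (o : Fin k) (l : Fin f) (τ : Tab p f k)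
    (s : Fin k → ZMod p) : ∑ j, z j • (mvA z o l τ s).1 j = ∑ j, z j • τ.1 j := by
  simp only [mvA, smul_add, Finset.sum_add_distrib]
  suffices h : ∑ j, z j • (if j = o then Pi.single l (-(z o)⁻¹ * ∑ i ∈ univ.erase o, z i * s i) else
      Pi.single l (s j) : Fin f → ZMod p) = 0 by rw [h, add_zero]
  rw [← Finset.add_sum_erase _ _ (Finset.mem_univ o)]
  rw [if_pos rfl]
  have h2 : ∑ x ∈ univ.erase o, z x • (if x = o then Pi.single l (-(z o)⁻¹ * ∑ i ∈ univ.erase o, z i * s i) else
      Pi.single l (s x) : Fin f → ZMod p) = Pi.single l (∑ i ∈ univ.erase o, z i * s i) := by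
    rw [Finset.sum_congr rfl (g := fun x => z x • (Pi.single l (s x) : Fin f → ZMod p))]
    · funext m
      rw [Finset.sum_apply]
      by_cases hm : m = l
      · subst hm; simp
      · simp [Pi.single_eq_of_ne hm]
    · intro x hx
      rw [if_neg (Finset.ne_of_mem_erase hx)]
  rw [h2]
  funext m
  by_cases hm : m = l
  · subst hm
    rw [Pi.add_apply, Pi.smul_apply, Pi.single_eq_same, Pi.single_eq_same, smul_eq_mul, Pi.zero_apply]
    have := hz o
    field_simp
    ring
  · simp [Pi.single_eq_of_ne hm]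

theorem count_empty (hk : 1 ≤ k) (z : Fin k → ZMod p) (hz : ∀ i, z i ≠ 0) (ψ c : Fin f → ZMod p) (hc : c ≠ 0) :
    (univ.filter (fun τ : Tab p f k => ∑ j, z j • τ.1 j = ψ ∧ ∀ j, dot (τ.1 j) c = 0)).card * p ^ k ≤
      (univ.filter (fun τ : Tab p f k => ∑ j, z j • τ.1 j = ψ)).card * p := by
  classical
  obtain ⟨l, hl⟩ := Function.ne_iff.mp hc
  rw [Pi.zero_apply] at hl
  let o : Fin k := ⟨0, hk⟩
  have key := card_mul_le (univ.filter (fun τ : Tab p f k => ∑ j, z j • τ.1 j = ψ ∧ ∀ j, dot (τ.1 j) c = 0))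
    (univ.filter (fun τ : Tab p f k => ∑ j, z j • τ.1 j = ψ)) (univ : Finset (ZMod p)) (mvA z o l)
    (fun s : Fin k → ZMod p => s o) ?_ (fun _ => Finset.mem_univ _) ?_ ?_
  · rw [card_S] at key
    have h2 : (univ : Finset (ZMod p)).card = p := by simp [ZMod.card]
    rw [h2] at key
    exact key
  · intro τ hτ s
    simp only [Finset.mem_filter, Finset.mem_univ, true_and] at hτ ⊢
    rw [sum_mvA z hz]; exact hτ.1
  · intro τ hτ τ' hτ' s s' h hz
    simp only [Finset.mem_filter, Finset.mem_univ, true_and] at hτ hτ'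
    funext j
    by_cases hj : j = o
    · rw [hj]; exact hz
    · have h1 := congrArg (fun t : Tab p f k => dot (t.1 j) c) h
      simp only [mvA, if_neg hj] at h1
      rw [dot_add_left, dot_add_left, hτ.2 j, hτ'.2 j, dot_single, dot_single, zero_add, zero_add] at h1
      exact mul_right_cancel₀ hl h1
  · intro τ τ' s h
    have h1 := congrArg Prod.fst h
    have h2 := congrArg Prod.snd h
    simp only [mvA] at h1 h2
    apply Prod.ext _ h2
    funext j
    have h3 := congrFun h1 j
    exact add_right_cancel h3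

/-- two vectors of a table changed -/
def mvB (z : Fin k → ZMod p) (o j0 : Fin k) (τ : Tab p f k) (s : Fin f → ZMod p) : Tab p f k :=
  (fun j => τ.1 j + if j = o then (-(z o)⁻¹ * z j0) • s else if j = j0 then s else 0, τ.2)

theorem sum_mvB' (a z : Fin k → ZMod p) (o j0 : Fin k) (ho : o ≠ j0) (τ : Tab p f k) (s : Fin f → ZMod p) :
    ∑ j, a j • (mvB z o j0 τ s).1 j = ∑ j, a j • τ.1 j + (a o * (-(z o)⁻¹ * z j0) + a j0) • s := by
  simp only [mvB, smul_add, Finset.sum_add_distrib]
  refine congrArg (fun t : Fin f → ZMod p => ∑ j, a j • τ.1 j + t) ?_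
  rw [← Finset.add_sum_erase _ _ (Finset.mem_univ o), if_pos rfl,
    ← Finset.add_sum_erase _ _ (Finset.mem_erase.mpr ⟨ho.symm, Finset.mem_univ j0⟩), if_neg ho.symm, if_pos rfl,
    Finset.sum_eq_zero]
  · rw [add_zero, add_smul, smul_smul]
  · intro x hx
    have h1 := Finset.mem_erase.mp hx
    have h2 := Finset.mem_erase.mp h1.2
    rw [if_neg h2.1, if_neg h1.1, smul_zero]

theorem count_psi (z Y : Fin k → ZMod p) (hz : ∀ i, z i ≠ 0) (o j0 : Fin k) (hYo : Y o = 0) (hY : Y j0 ≠ 0)
    (ψ ψ' : Fin f → ZMod p) :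
    (univ.filter (fun τ : Tab p f k => ∑ j, z j • τ.1 j = ψ ∧ ∑ j, Y j • τ.1 j = ψ')).card * p ^ f ≤
      (univ.filter (fun τ : Tab p f k => ∑ j, z j • τ.1 j = ψ)).card := by
  classical
  have hoj : o ≠ j0 := by
    rintro rfl
    exact hY hYo
  have hzo := hz o
  have hsum : ∀ (τ : Tab p f k) (s : Fin f → ZMod p),
      ∑ j, Y j • (mvB z o j0 τ s).1 j = ∑ j, Y j • τ.1 j + Y j0 • s := by
    intro τ s
    rw [sum_mvB' Y z o j0 hoj, hYo, zero_mul, zero_add]
  have hsumz : ∀ (τ : Tab p f k) (s : Fin f → ZMod p),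
      ∑ j, z j • (mvB z o j0 τ s).1 j = ∑ j, z j • τ.1 j := by
    intro τ s
    have e : z o * (-(z o)⁻¹ * z j0) + z j0 = 0 := by
      field_simp
      ring
    rw [sum_mvB' z z o j0 hoj, e, zero_smul, add_zero]
  have key := card_mul_le (univ.filter (fun τ : Tab p f k => ∑ j, z j • τ.1 j = ψ ∧ ∑ j, Y j • τ.1 j = ψ'))
    (univ.filter (fun τ : Tab p f k => ∑ j, z j • τ.1 j = ψ)) (univ : Finset Unit) (mvB z o j0)
    (fun _ : Fin f → ZMod p => ()) ?_ (fun _ => Finset.mem_univ _) ?_ ?_
  · rw [card_S] at key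
    simpa using key
  · intro τ hτ s
    simp only [Finset.mem_filter, Finset.mem_univ, true_and] at hτ ⊢
    rw [hsumz]; exact hτ.1
  · intro τ hτ τ' hτ' s s' h _
    simp only [Finset.mem_filter, Finset.mem_univ, true_and] at hτ hτ'
    have h1 := congrArg (fun t : Tab p f k => ∑ j, Y j • t.1 j) h
    simp only [hsum, hτ.2, hτ'.2] at h1
    have h2 := add_left_cancel h1
    funext l
    have h3 := congrFun h2 l
    rw [Pi.smul_apply, Pi.smul_apply, smul_eq_mul, smul_eq_mul] at h3
    exact mul_left_cancel₀ hY h3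
  · intro τ τ' s h
    have h1 := congrArg Prod.fst h
    have h2 := congrArg Prod.snd h
    simp only [mvB] at h1 h2
    apply Prod.ext _ h2
    funext j
    have h3 := congrFun h1 j
    exact add_right_cancel h3

/-! ### The symbols of the pairs -/

/-- the symmetric matrix of the changes of the symbols -/
def Em (z Y : Fin k → ZMod p) (o j0 : Fin k) (s : Fin k → ZMod p) (a b : Fin k) : ZMod p :=
  if a = j0 ∧ b ≠ j0 ∧ Y b * (z b)⁻¹ ≠ Y j0 * (z j0)⁻¹ then s b
  else if b = j0 ∧ a ≠ j0 ∧ Y a * (z a)⁻¹ ≠ Y j0 * (z j0)⁻¹ then s a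
  else if a = o ∧ b ≠ j0 ∧ Y b * (z b)⁻¹ = Y j0 * (z j0)⁻¹ then s b
  else if b = o ∧ a ≠ j0 ∧ Y a * (z a)⁻¹ = Y j0 * (z j0)⁻¹ then s a
  else 0

/-- the symbols of the pairs changed -/
def mvC (z Y : Fin k → ZMod p) (o j0 : Fin k) (τ : Tab p f k) (s : Fin k → ZMod p) : Tab p f k :=
  (τ.1, fun x => τ.2 x + Em z Y o j0 s x.1.1 x.1.2)

variable (z Y : Fin k → ZMod p) (hz : ∀ i, z i ≠ 0) (o j0 : Fin k) (hYo : Y o = 0) (hY : Y j0 ≠ 0)

theorem Em_sub (s s' : Fin k → ZMod p) (a b : Fin k) :
    Em z Y o j0 (s - s') a b = Em z Y o j0 s a b - Em z Y o j0 s' a b := by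
  unfold Em
  split_ifs <;> simp

include hz hYo hY in
theorem rho_ne : Y o * (z o)⁻¹ ≠ Y j0 * (z j0)⁻¹ := by
  rw [hYo, zero_mul]
  exact (mul_ne_zero hY (inv_ne_zero (hz j0))).symm

include hz hYo hY in
theorem Em_symm (s : Fin k → ZMod p) (a b : Fin k) : Em z Y o j0 s a b = Em z Y o j0 s b a := by
  have h0 := rho_ne z Y hz o j0 hYo hY
  have hoj : o ≠ j0 := by
    rintro rfl
    exact h0 rfl
  unfold Em
  by_cases ha : a = j0
  · by_cases hb : b = j0
    · rw [ha, hb]
    · subst ha
      simp only [ne_eq, not_true_eq_false, false_and, and_false, if_false, true_and, hb, not_false_eq_true]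
  · by_cases hb : b = j0
    · subst hb
      simp only [ne_eq, not_true_eq_false, false_and, and_false, if_false, true_and, ha, not_false_eq_true]
    · simp only [ha, hb, false_and, if_false, ne_eq, not_false_eq_true, true_and]
      split_ifs <;> simp_all

include hz hYo hY in
theorem Em_self (s : Fin k → ZMod p) (a : Fin k) : Em z Y o j0 s a a = 0 := by
  have h0 := rho_ne z Y hz o j0 hYo hY
  unfold Em
  split_ifs with h1 h2
  · exact absurd h1.1 h1.2.1
  · exact absurd (h2.1 ▸ h2.2.2) h0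
  · rfl

include hz hYo hY in
theorem Mt_mvC (g : (Fin f → ZMod p) → (Fin f → ZMod p) → ZMod p)
    (τ : Tab p f k) (s : Fin k → ZMod p) (i j : Fin k) :
    Mt g (mvC z Y o j0 τ s) i j = Mt g τ i j + Em z Y o j0 s i j := by
  unfold Mt mvC
  rcases lt_trichotomy i j with h | h | h
  · rw [dif_pos h, dif_pos h]
  · subst h
    rw [dif_neg (lt_irrefl i), dif_neg (lt_irrefl i), dif_neg (lt_irrefl i), dif_neg (lt_irrefl i),
      Em_self z Y hz o j0 hYo hY, add_zero]
  · rw [dif_neg h.le.not_gt, dif_neg h.le.not_gt, dif_pos h, dif_pos h, Em_symm z Y hz o j0 hYo hY s i j]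
    simp only
    ring

include hz hYo hY in
theorem Em_inj (t : Fin k → ZMod p)
    (h : ∀ j, ∑ i, (Y i - Y j * (z j)⁻¹ * z i) * Em z Y o j0 t i j = 0) (h0 : t j0 = 0) : t = 0 := by
  have hr := rho_ne z Y hz o j0 hYo hY
  have hoj : o ≠ j0 := by
    rintro rfl
    exact hr rfl
  have hzj := hz j0
  have hzo := hz o
  -- the other entries
  have h1 : ∀ j, j ≠ o → j ≠ j0 → t j = 0 := by
    intro j hjo hj
    have hj1 := h j
    have hzj' := hz j
    by_cases hρ : Y j * (z j)⁻¹ = Y j0 * (z j0)⁻¹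
    · rw [Finset.sum_eq_single o] at hj1
      · have e : Em z Y o j0 t o j = t j := by
          unfold Em
          rw [if_neg (fun hh => hoj hh.1), if_neg (fun hh => hj hh.1), if_pos ⟨rfl, hj, hρ⟩]
        rw [e, hYo, hρ] at hj1
        rcases mul_eq_zero.mp hj1 with h2 | h2
        · exfalso
          rw [zero_sub, neg_eq_zero] at h2
          exact mul_ne_zero (mul_ne_zero hY (inv_ne_zero hzj)) hzo h2
        · exact h2
      · intro i _ hio
        have e : Em z Y o j0 t i j = 0 := by
          unfold Em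
          rw [if_neg (fun hh => hh.2.2 hρ), if_neg (fun hh => hj hh.1), if_neg (fun hh => hio hh.1),
            if_neg (fun hh => hjo hh.1)]
        rw [e, mul_zero]
      · intro hh; exact absurd (Finset.mem_univ o) hh
    · rw [Finset.sum_eq_single j0] at hj1
      · have e : Em z Y o j0 t j0 j = t j := by
          unfold Em
          rw [if_pos ⟨rfl, hj, hρ⟩]
        rw [e] at hj1
        rcases mul_eq_zero.mp hj1 with h2 | h2
        · exfalso
          apply hρ
          have h3 : Y j0 = Y j * (z j)⁻¹ * z j0 := sub_eq_zero.mp h2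
          rw [h3, mul_assoc (Y j * (z j)⁻¹), mul_inv_cancel₀ hzj, mul_one]
        · exact h2
      · intro i _ hij
        have e : Em z Y o j0 t i j = 0 := by
          unfold Em
          rw [if_neg (fun hh => hij hh.1), if_neg (fun hh => hj hh.1), if_neg (fun hh => hρ hh.2.2),
            if_neg (fun hh => hjo hh.1)]
        rw [e, mul_zero]
      · intro hh; exact absurd (Finset.mem_univ j0) hh
  have h2 : t o = 0 := by
    have hj1 := h o
    rw [Finset.sum_eq_single j0] at hj1
    · have e : Em z Y o j0 t j0 o = t o := by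
        unfold Em
        rw [if_pos ⟨rfl, hoj, hr⟩]
      rw [e, hYo, zero_mul, zero_mul, sub_zero] at hj1
      exact (mul_eq_zero.mp hj1).resolve_left hY
    · intro i _ hij
      have e : Em z Y o j0 t i o = 0 := by
        unfold Em
        rw [if_neg (fun hh => hij hh.1), if_neg (fun hh => hoj hh.1), if_neg (fun hh => hr hh.2.2)]
        split_ifs with hh
        · refine h1 i ?_ hij
          rintro rfl
          exact hr hh.2.2
        · rfl
      rw [e, mul_zero]
    · intro hh; exact absurd (Finset.mem_univ j0) hh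
  funext j
  by_cases hjo : j = o
  · rw [hjo, h2]; rfl
  · by_cases hj : j = j0
    · rw [hj, h0]; rfl
    · rw [h1 j hjo hj]; rfl

open Classical in
include hz hYo hY in
theorem count_J (g : (Fin f → ZMod p) → (Fin f → ZMod p) → ZMod p) (w ψ c : Fin f → ZMod p)
    (E : Finset ((Fin f → ZMod p) × (Fin f → ZMod p))) :
    (univ.filter (fun τ : Tab p f k => ∑ j, z j • τ.1 j = ψ ∧ IsSol g w z E τ (c, Y))).card * p ^ k ≤
      (univ.filter (fun τ : Tab p f k => ∑ j, z j • τ.1 j = ψ ∧ (∑ j, Y j • τ.1 j, c) ∈ E)).card * p := by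
  classical
  have key := card_mul_le (univ.filter (fun τ : Tab p f k => ∑ j, z j • τ.1 j = ψ ∧ IsSol g w z E τ (c, Y)))
    (univ.filter (fun τ : Tab p f k => ∑ j, z j • τ.1 j = ψ ∧ (∑ j, Y j • τ.1 j, c) ∈ E))
    (univ : Finset (ZMod p)) (mvC z Y o j0) (fun s : Fin k → ZMod p => s j0) ?_ (fun _ => Finset.mem_univ _) ?_ ?_
  · rw [card_S] at key
    have h2 : (univ : Finset (ZMod p)).card = p := by simp [ZMod.card]
    rw [h2] at key
    exact key
  · intro τ hτ s
    simp only [Finset.mem_filter, Finset.mem_univ, true_and] at hτ ⊢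
    exact ⟨hτ.1, hτ.2.2.2.1⟩
  · intro τ hτ τ' hτ' s s' h hz'
    simp only [Finset.mem_filter, Finset.mem_univ, true_and] at hτ hτ'
    obtain ⟨-, -, -, -, hc⟩ := hτ
    obtain ⟨-, -, -, -, hc'⟩ := hτ'
    have h11 : τ.1 = τ'.1 := by
      have := congrArg Prod.fst h
      exact this
    rw [← sub_eq_zero]
    refine Em_inj z Y hz o j0 hYo hY (s - s') ?_ ?_
    · intro j
      have e1 := hc j
      have e2 := hc' j
      simp only at e1 e2
      rw [h11, ← e2, ← sub_eq_zero, ← Finset.sum_sub_distrib] at e1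
      have h12 := congrArg (fun t : Tab p f k => ∑ i, (Y i - Y j * (z j)⁻¹ * z i) * Mt g t i j) h
      simp only [Mt_mvC z Y hz o j0 hYo hY] at h12
      rw [← sub_eq_zero, ← Finset.sum_sub_distrib] at h12
      rw [← h12, ← sub_eq_zero]
      rw [← Finset.sum_sub_distrib, ← neg_eq_zero, ← e1, ← Finset.sum_neg_distrib]
      refine Finset.sum_congr rfl fun i _ => ?_
      rw [Em_sub]
      ring
    · rw [Pi.sub_apply, sub_eq_zero]
      exact hz'
  · intro τ τ' s h
    have h1 := congrArg Prod.fst h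
    have h2 := congrArg Prod.snd h
    simp only [mvC] at h1 h2
    apply Prod.ext h1
    funext j
    have h3 := congrFun h2 j
    exact add_right_cancel h3

end

open Classical in
theorem count : S_COUNT := by
  intro p hp f k hk g w ψ z hz E
  have hp0 : 0 < p := hp.out.pos
  set T := (univ.filter (fun τ : Tab p f k => ∑ j, z j • τ.1 j = ψ)).card with hT
  let o : Fin k := ⟨0, hk⟩
  -- the number of the tables for a solution
  let Nn' : (Fin f → ZMod p) → (Fin k → ZMod p) → ℕ := fun c Y =>
    (univ.filter (fun τ : Tab p f k => ∑ j, z j • τ.1 j = ψ ∧ IsSol g w z E τ (c, Y))).card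
  have hex : (∑ τ ∈ univ.filter (fun τ : Tab p f k => ∑ j, z j • τ.1 j = ψ),
      ((univ : Finset ((Fin f → ZMod p) × (Fin k → ZMod p))).filter
        (fun x => IsSol g w z E τ x)).card) = ∑ Y : Fin k → ZMod p, ∑ c : Fin f → ZMod p, Nn' c Y := by
    rw [Finset.sum_comm]
    simp only [Nn', Finset.card_filter]
    rw [Finset.sum_filter]
    have h0 : ∀ τ : Tab p f k, (∑ x : (Fin f → ZMod p) × (Fin k → ZMod p), if IsSol g w z E τ x then 1 else 0) =
        ∑ c : Fin f → ZMod p, ∑ Y : Fin k → ZMod p, (if IsSol g w z E τ (c, Y) then 1 else 0) := by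
      intro τ
      exact Fintype.sum_prod_type _
    simp only [h0]
    have h1 : ∀ τ : Tab p f k, (if ∑ j, z j • τ.1 j = ψ then
        ∑ c : Fin f → ZMod p, ∑ Y : Fin k → ZMod p, (if IsSol g w z E τ (c, Y) then 1 else 0) else 0) =
        ∑ c : Fin f → ZMod p, ∑ Y : Fin k → ZMod p,
          (if ∑ j, z j • τ.1 j = ψ ∧ IsSol g w z E τ (c, Y) then 1 else 0) := by
      intro τ
      split_ifs with h
      · simp [h]
      · simp [h]
    rw [Finset.sum_congr rfl (fun τ _ => h1 τ)]
    rw [Finset.sum_comm]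
    apply Finset.sum_congr rfl
    intro c _
    rw [Finset.sum_comm]
  have hJ : ∀ Y : Fin k → ZMod p, (∑ c : Fin f → ZMod p, Nn' c Y) * (p ^ k * p ^ f) ≤
      if Y = 0 then p ^ f * p ^ f * p * T else if Y o = 0 then p * E.card * T else 0 := by
    intro Y
    split_ifs with h1 h2
    · subst h1
      have h3 : ∀ c : Fin f → ZMod p, Nn' c 0 * p ^ k ≤ T * p := by
        intro c
        by_cases hc : c = 0
        · have h4 : Nn' c 0 = 0 := by
            simp only [Nn', Finset.card_eq_zero, Finset.filter_eq_empty_iff]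
            intro τ _ h5
            apply h5.2.2.1
            rw [hc]
            rfl
          rw [h4]; simp
        · refine le_trans (Nat.mul_le_mul_right _ (Finset.card_le_card ?_)) (count_empty hk z hz ψ c hc)
          intro τ hτ
          simp only [Finset.mem_filter, Finset.mem_univ, true_and] at hτ ⊢
          refine ⟨hτ.1, fun j => ?_⟩
          have := hτ.2.2.2.2 j
          simpa using this.symm
      calc (∑ c : Fin f → ZMod p, Nn' c 0) * (p ^ k * p ^ f)
          = (∑ c : Fin f → ZMod p, Nn' c 0 * p ^ k) * p ^ f := by rw [← Finset.sum_mul]; ring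
        _ ≤ (∑ c : Fin f → ZMod p, T * p) * p ^ f := Nat.mul_le_mul_right _ (Finset.sum_le_sum fun c _ => h3 c)
        _ = p ^ f * p ^ f * p * T := by
          rw [Finset.sum_const, Finset.card_univ, card_S, smul_eq_mul]; ring
    · obtain ⟨j0, hj0⟩ := Function.ne_iff.mp h1
      rw [Pi.zero_apply] at hj0
      have h3 : ∀ c : Fin f → ZMod p, Nn' c Y * p ^ k ≤
          (univ.filter (fun τ : Tab p f k => ∑ j, z j • τ.1 j = ψ ∧ (∑ j, Y j • τ.1 j, c) ∈ E)).card * p := by
        intro c
        exact count_J z Y hz o j0 h2 hj0 g w ψ c E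
      have h4 : (∑ c : Fin f → ZMod p,
          (univ.filter (fun τ : Tab p f k => ∑ j, z j • τ.1 j = ψ ∧ (∑ j, Y j • τ.1 j, c) ∈ E)).card) * p ^ f ≤
          E.card * T := by
        have h5 : ∀ c : Fin f → ZMod p,
            (univ.filter (fun τ : Tab p f k => ∑ j, z j • τ.1 j = ψ ∧ (∑ j, Y j • τ.1 j, c) ∈ E)).card =
            ∑ ψ' : Fin f → ZMod p, if (ψ', c) ∈ E then
              (univ.filter (fun τ : Tab p f k => ∑ j, z j • τ.1 j = ψ ∧ ∑ j, Y j • τ.1 j = ψ')).card else 0 := by
          intro c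
          rw [Finset.card_eq_sum_card_fiberwise (f := fun τ : Tab p f k => ∑ j, Y j • τ.1 j)
            (t := (univ : Finset (Fin f → ZMod p))) (fun _ _ => Finset.mem_coe.mpr (Finset.mem_univ _))]
          apply Finset.sum_congr rfl
          intro ψ' _
          rw [Finset.filter_filter]
          split_ifs with h6
          · refine congrArg Finset.card ?_
            apply Finset.filter_congr
            intro τ _
            constructor
            · rintro ⟨⟨a, b⟩, c'⟩; exact ⟨a, c'⟩
            · rintro ⟨a, c'⟩; exact ⟨⟨a, by rw [c']; exact h6⟩, c'⟩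
          · rw [Finset.card_eq_zero, Finset.filter_eq_empty_iff]
            rintro τ _ ⟨⟨a, b⟩, c'⟩
            rw [c'] at b; exact h6 b
        have h6 : E.card = ∑ c : Fin f → ZMod p, ∑ ψ' : Fin f → ZMod p, if (ψ', c) ∈ E then 1 else 0 := by
          rw [Finset.sum_comm, ← Fintype.sum_prod_type' (f := fun (ψ' c : Fin f → ZMod p) => if (ψ', c) ∈ E then 1 else 0)]
          simp
        rw [h6, Finset.sum_mul, Finset.sum_mul]
        apply Finset.sum_le_sum
        intro c _
        rw [h5 c, Finset.sum_mul, Finset.sum_mul]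
        apply Finset.sum_le_sum
        intro ψ' _
        split_ifs with h7
        · rw [one_mul]
          exact count_psi z Y hz o j0 h2 hj0 ψ ψ'
        · simp
      calc (∑ c : Fin f → ZMod p, Nn' c Y) * (p ^ k * p ^ f)
          = (∑ c : Fin f → ZMod p, Nn' c Y * p ^ k) * p ^ f := by rw [← Finset.sum_mul]; ring
        _ ≤ (∑ c : Fin f → ZMod p,
          (univ.filter (fun τ : Tab p f k => ∑ j, z j • τ.1 j = ψ ∧ (∑ j, Y j • τ.1 j, c) ∈ E)).card * p) * p ^ f :=
            Nat.mul_le_mul_right _ (Finset.sum_le_sum fun c _ => h3 c)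
        _ = ((∑ c : Fin f → ZMod p,
          (univ.filter (fun τ : Tab p f k => ∑ j, z j • τ.1 j = ψ ∧ (∑ j, Y j • τ.1 j, c) ∈ E)).card) * p ^ f) * p := by
            rw [← Finset.sum_mul]; ring
        _ ≤ (E.card * T) * p := Nat.mul_le_mul_right _ h4
        _ = p * E.card * T := by ring
    · have h3 : ∀ c : Fin f → ZMod p, Nn' c Y = 0 := by
        intro c
        simp only [Nn', Finset.card_eq_zero, Finset.filter_eq_empty_iff]
        intro τ _ h5
        exact h2 (h5.2.1 o rfl)
      simp [h3]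
  have hcardJ : (univ.filter (fun Y : Fin k → ZMod p => Y o = 0)).card * p = p ^ k := by
    have h1 : (univ.filter (fun Y : Fin k → ZMod p => Y o = 0)).card * Fintype.card (ZMod p) =
        (univ : Finset (Fin k → ZMod p)).card := by
      rw [← Finset.card_univ, ← Finset.card_product]
      refine Finset.card_bij (fun x _ => x.1 + Pi.single o x.2) (fun _ _ => Finset.mem_univ _) ?_ ?_
      · rintro ⟨Y, s⟩ hx ⟨Y', s'⟩ hx' h
        simp only [Finset.mem_product, Finset.mem_filter, Finset.mem_univ, true_and, and_true] at hx hx'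
        have h2 := congrFun h o
        simp only [Pi.add_apply, Pi.single_eq_same, hx, hx', zero_add] at h2
        subst h2
        have h3 := add_right_cancel h
        exact Prod.ext h3 rfl
      · intro Y _
        refine ⟨(Y - Pi.single o (Y o), Y o), ?_, ?_⟩
        · simp
        · simp
    rw [ZMod.card, Finset.card_univ, card_S] at h1
    exact h1
  have hmain : (∑ Y : Fin k → ZMod p, ∑ c : Fin f → ZMod p, Nn' c Y) * (p ^ k * p ^ f) ≤
      (E.card * p ^ k + p ^ f * p ^ f * p) * T := by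
    rw [Finset.sum_mul]
    refine le_trans (Finset.sum_le_sum fun Y _ => hJ Y) ?_
    have h1 : ∀ Y : Fin k → ZMod p, (if Y = 0 then p ^ f * p ^ f * p * T else if Y o = 0 then p * E.card * T else 0) ≤
        (if Y = 0 then p ^ f * p ^ f * p * T else 0) + (if Y o = 0 then p * E.card * T else 0) := by
      intro Y
      split_ifs <;> simp_all
    refine le_trans (Finset.sum_le_sum fun Y _ => h1 Y) ?_
    rw [Finset.sum_add_distrib, Finset.sum_ite_eq' univ (0 : Fin k → ZMod p) (fun _ => p ^ f * p ^ f * p * T),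
      if_pos (Finset.mem_univ _), ← Finset.sum_filter, Finset.sum_const, smul_eq_mul]
    have h2 : (univ.filter (fun Y : Fin k → ZMod p => Y o = 0)).card * (p * E.card * T) = E.card * p ^ k * T := by
      rw [← hcardJ]; ring
    rw [h2]
    exact le_of_eq (by ring)
  have hpr : (0 : ℝ) < p := by exact_mod_cast hp0
  have hR : ((∑ Y : Fin k → ZMod p, ∑ c : Fin f → ZMod p, Nn' c Y : ℕ) : ℝ) * ((p : ℝ) ^ k * (p : ℝ) ^ f) ≤
      ((E.card : ℝ) * (p : ℝ) ^ k + (p : ℝ) ^ f * (p : ℝ) ^ f * p) * (T : ℝ) := by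
    exact_mod_cast hmain
  rw [← hex] at hR
  push_cast at hR ⊢
  have hfin : (((E.card : ℝ) * (p : ℝ) ^ k + (p : ℝ) ^ f * (p : ℝ) ^ f * p) * (T : ℝ)) /
      ((p : ℝ) ^ k * (p : ℝ) ^ f) =
      ((E.card : ℝ) / (p : ℝ) ^ f + (p : ℝ) ^ f * p / (p : ℝ) ^ k) * (T : ℝ) := by
    field_simp
  rw [← hfin, le_div_iff₀ (by positivity)]
  exact hR

end Pool.Agent.Q277.LK.COUNT
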