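import Pool.Agent.Q7.LK.Stm
import Pool.Agent.Q96.LQ.SU

/-!
# Project LK, job SU: units outside `S` (the version for odd primes of the file of helper96)
-/

set_option autoImplicit false

namespace Pool.Agent.Q277.LK.SU

open NumberField IsDedekindDomain Pool.Agent.Q7.LK
open Pool.Agent.Q283.LQ (Sm nS)
open Pool.Agent.Q96.LQ (Good exists_good exists_gen fin_ne_one GS gS fS fS_inj noeth rank_GS torsion_GS)
open scoped nonZeroDivisors

variable {F : Type} [Field F] [NumberField F] (p : ℕ) [hp : Fact p.Prime]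

theorem exists_adj (y : ℕ) (hy : Good F y) (a : F) (ha : a ≠ 0)
    (hev : ∀ v : HeightOneSpectrum (𝓞 F), ¬ Sm y v → vl p v a = 0) :
    ∃ x : F, x ≠ 0 ∧ ∀ v : HeightOneSpectrum (𝓞 F), ¬ Sm y v → v.valuation F (a * x ^ p) = 1 := by
  classical
  have hgen := exists_gen y hy
  choose! q hq1 hq2 using hgen
  have hn : ∀ v : HeightOneSpectrum (𝓞 F), ¬ Sm y v → ∃ n : ℤ, v.valuation F a = WithZero.exp (p * n) := by
    intro v hv
    have h0 : v.valuation F a ≠ 0 := (Valuation.ne_zero_iff _).mpr ha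
    have h1 := hev v hv
    rw [vl, neg_eq_zero, ZMod.intCast_zmod_eq_zero_iff_dvd] at h1
    obtain ⟨j, hj⟩ := h1
    exact ⟨j, by rw [← hj, WithZero.exp_log h0]⟩
  choose! n hn using hn
  have hp0 : ∀ w : HeightOneSpectrum (𝓞 F), ¬ Sm y w → q w ≠ 0 := by
    intro w hw h0
    have := hq1 w hw
    rw [h0, map_zero] at this
    exact WithZero.exp_ne_zero this.symm
  have hT := (fin_ne_one a ha)
  let T := hT.toFinset.filter (fun v => ¬ Sm y v)
  have hTm : ∀ v, v ∈ T ↔ v.valuation F a ≠ 1 ∧ ¬ Sm y v := by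
    intro v
    simp [T]
  refine ⟨∏ v ∈ T, q v ^ (n v), ?_, ?_⟩
  · apply Finset.prod_ne_zero_iff.mpr
    intro v hv
    exact zpow_ne_zero _ (hp0 v ((hTm v).mp hv).2)
  · intro w hw
    rw [map_mul, map_pow, map_prod]
    have h1 : ∏ v ∈ T, w.valuation F (q v ^ (n v)) = WithZero.exp (- (n w)) := by
      by_cases hwT : w ∈ T
      · rw [Finset.prod_eq_single_of_mem w hwT, map_zpow₀, hq1 w hw, ← WithZero.exp_zsmul]
        · congr 1
          simp
        · intro v hv hvw
          rw [map_zpow₀, hq2 v ((hTm v).mp hv).2 w hw (Ne.symm hvw), one_zpow]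
      · have h2 : w.valuation F a = 1 := by
          by_contra h
          exact hwT ((hTm w).mpr ⟨h, hw⟩)
        rw [hn w hw, ← WithZero.exp_zero, WithZero.exp_inj] at h2
        have h3 : n w = 0 := by
          rcases mul_eq_zero.mp h2 with h | h
          · exact absurd (by exact_mod_cast h) hp.out.ne_zero
          · exact h
        rw [Finset.prod_eq_one, h3, neg_zero, WithZero.exp_zero]
        intro v hv
        have hvw : w ≠ v := by
          rintro rfl
          exact hwT hv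
        rw [map_zpow₀, hq2 v ((hTm v).mp hv).2 w hw hvw, one_zpow]
    rw [h1, hn w hw, ← WithZero.exp_nsmul, ← WithZero.exp_add, ← WithZero.exp_zero]
    congr 1
    simp only [nsmul_eq_mul]
    ring

omit hp in
theorem mon_eq (y : ℕ) {f : ℕ} (U : Fin f → Additive (GS F y)) (c : Fin f → ZMod p) :
    mon (fun l => (((U l).toMul : Fˣ) : F)) c = (((∑ l, (c l).val • U l).toMul : Fˣ) : F) := by
  simp [mon, toMul_sum, toMul_nsmul]

theorem exists_zeta (ζ : F) (hζ : IsPrimitiveRoot ζ p) :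
    ∃ ζ : (𝓞 F)ˣ, (∀ u ∈ Units.torsion F, ∃ k : ℤ, u = ζ ^ k) ∧ ζ ∈ Units.torsion F ∧
      ∀ k : ℤ, ζ ^ k = 1 → (p : ℤ) ∣ k := by
  obtain ⟨g, hg⟩ := IsCyclic.exists_generator (α := Units.torsion F)
  refine ⟨g.1, ?_, g.2, ?_⟩
  · intro u hu
    obtain ⟨k, hk⟩ := Subgroup.mem_zpowers_iff.mp (hg ⟨u, hu⟩)
    refine ⟨k, ?_⟩
    exact (congrArg Subtype.val hk).symm
  · intro k hk
    have h1 : g ^ k = 1 := Subtype.ext (by
      rw [Subgroup.coe_zpow]
      exact hk)
    -- the primitive root is in the torsion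
    have hint : IsPrimitiveRoot hζ.toInteger p := hζ.toInteger_isPrimitiveRoot
    obtain ⟨w, hw⟩ := hint.isUnit hp.out.ne_zero
    have hwp : w ^ p = 1 := by
      ext
      rw [Units.val_pow_eq_pow_val, hw, hint.pow_eq_one, Units.val_one]
    have hwt : w ∈ Units.torsion F := by
      rw [Units.torsion, CommGroup.mem_torsion]
      exact isOfFinOrder_iff_pow_eq_one.mpr ⟨p, hp.out.pos, hwp⟩
    obtain ⟨m, hm⟩ := Subgroup.mem_zpowers_iff.mp (hg ⟨w, hwt⟩)
    have h2 : w ^ k = 1 := by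
      have h3 : (⟨w, hwt⟩ : Units.torsion F) ^ k = 1 := by
        rw [← hm, ← zpow_mul, mul_comm, zpow_mul, h1, one_zpow]
      have h4 := congrArg Subtype.val h3
      rwa [Subgroup.coe_zpow] at h4
    have hord : orderOf w = p := by
      refine orderOf_eq_prime hwp ?_
      intro h
      rw [h, Units.val_one] at hw
      rw [← hw] at hint
      exact hp.out.one_lt.ne' (hint.unique IsPrimitiveRoot.one)
    rw [← hord]
    exact orderOf_dvd_iff_zpow_eq_one.mpr h2

theorem even_val (m : ℤ) : ∃ j : ℤ, m + ((((-m : ℤ) : ZMod p)).val : ℤ) = p * j := by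
  have h1 : (((m + ((((-m : ℤ) : ZMod p)).val : ℤ) : ℤ)) : ZMod p) = 0 := by
    push_cast
    rw [ZMod.natCast_zmod_val]
    ring
  obtain ⟨j, hj⟩ := (ZMod.intCast_zmod_eq_zero_iff_dvd _ p).mp h1
  exact ⟨j, by exact_mod_cast hj⟩

theorem val_zero (c : ZMod p) (j : ℤ) (h : (c.val : ℤ) = p * j) : c = 0 := by
  have h1 := ZMod.val_lt c
  have h2 : c.val = 0 := by
    have h3 : (p : ℤ) ∣ (c.val : ℤ) := ⟨j, h⟩
    have h4 : p ∣ c.val := by exact_mod_cast h3
    exact Nat.eq_zero_of_dvd_of_lt h4 h1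
  exact (ZMod.val_eq_zero c).mp h2

theorem exists_basis (ζ : F) (hζ : IsPrimitiveRoot ζ p) (y : ℕ) : ∃ (f : ℕ) (U : Fin f → Additive (GS F y)),
    InfinitePlace.nrRealPlaces F + InfinitePlace.nrComplexPlaces F + nS F y ≤ f ∧
    (∀ (c : Fin f → ZMod p) (x : Additive (GS F y)), ∑ l, (c l).val • U l = (p : ℤ) • x → c = 0) ∧
    (∀ a : Additive (GS F y), ∃ (c : Fin f → ZMod p) (x : Additive (GS F y)),
      a + ∑ l, (c l).val • U l = (p : ℤ) • x) := by
  have hne : NeZero p := ⟨hp.out.ne_zero⟩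
  have hpz : (p : ℤ) ≠ 0 := by exact_mod_cast hp.out.ne_zero
  have hno := noeth (F := F) y
  have hfin : Module.Finite ℤ (Additive (GS F y)) := inferInstance
  set T : Submodule ℤ (Additive (GS F y)) := Submodule.torsion ℤ (Additive (GS F y)) with hT
  have hmk : ∀ x : Additive (GS F y), T.mkQ x = 0 ↔ x ∈ T := fun x => by
    rw [Submodule.mkQ_apply, Submodule.Quotient.mk_eq_zero]
  have htf : Module.IsTorsionFree ℤ (Additive (GS F y) ⧸ T) := inferInstance
  have hfree : Module.Free ℤ (Additive (GS F y) ⧸ T) := inferInstance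
  let n := Module.finrank ℤ (Additive (GS F y) ⧸ T)
  have hn : n = Module.finrank ℤ (Additive (GS F y)) := finrank_quotient_eq_of_le_torsion le_rfl
  let b : Module.Basis (Fin n) ℤ (Additive (GS F y) ⧸ T) := Module.finBasis ℤ (Additive (GS F y) ⧸ T)
  obtain ⟨ζ, hζ1, hζ2, hζ3⟩ := exists_zeta p ζ hζ
  let z : Additive (GS F y) := fS F y (Additive.ofMul ζ)
  have hzT : z ∈ T := by
    rw [hT, Submodule.mem_torsion_iff]
    rw [Units.torsion, CommGroup.mem_torsion, isOfFinOrder_iff_pow_eq_one] at hζ2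
    obtain ⟨m, hm, hm1⟩ := hζ2
    refine ⟨⟨(m : ℤ), mem_nonZeroDivisors_of_ne_zero (by omega)⟩, ?_⟩
    change (m : ℤ) • fS F y (Additive.ofMul ζ) = 0
    have h1 : (m : ℤ) • Additive.ofMul ζ = 0 := by
      apply Additive.toMul.injective
      change ζ ^ (m : ℤ) = 1
      rw [zpow_natCast, hm1]
    rw [← map_smul, h1, map_zero]
  have hTz : ∀ x ∈ T, ∃ k : ℤ, x = k • z := by
    intro x hx
    obtain ⟨u, hu, hux⟩ := torsion_GS y x hx
    obtain ⟨k, hk⟩ := hζ1 u hu
    refine ⟨k, ?_⟩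
    rw [← hux, hk]
    change _ = k • fS F y (Additive.ofMul ζ)
    rw [← map_smul]
    rfl
  have hz2 : ∀ k : ℤ, k • z = 0 → (p : ℤ) ∣ k := by
    intro k hk
    change k • fS F y (Additive.ofMul ζ) = 0 at hk
    rw [← map_smul, ← map_zero (fS F y)] at hk
    exact hζ3 k (fS_inj y hk)
  choose g hg using fun i => Submodule.mkQ_surjective T (b i)
  refine ⟨n + 1, Fin.cons z g, ?_, ?_, ?_⟩
  · rw [hn]
    exact rank_GS y
  · intro c x hx
    rw [Fin.sum_univ_succ] at hx
    simp only [Fin.cons_zero, Fin.cons_succ] at hx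
    have h1 := congrArg T.mkQ hx
    rw [map_add, map_nsmul, (hmk z).mpr hzT, smul_zero, zero_add,
      map_sum, map_smul] at h1
    simp only [map_nsmul, hg] at h1
    have h2 : ∀ i, ((c i.succ).val : ℤ) = p * b.repr (T.mkQ x) i := by
      intro i
      have h3' := congrArg (b.coord i) h1
      simp only [map_sum, map_nsmul, map_zsmul, Module.Basis.coord_apply, Module.Basis.repr_self,
        nsmul_eq_mul, zsmul_eq_mul, Int.cast_natCast] at h3'
      rw [Finset.sum_eq_single_of_mem i (Finset.mem_univ i)] at h3'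
      · rwa [Finsupp.single_eq_same, mul_one] at h3'
      · intro j _ hji
        rw [Finsupp.single_eq_of_ne (Ne.symm hji), mul_zero]
    have h4 : ∀ i : Fin n, c i.succ = 0 := fun i => val_zero p _ _ (h2 i)
    have h5 : T.mkQ x = 0 := by
      apply b.repr.injective
      ext i
      have := h2 i
      rw [h4 i, ZMod.val_zero, Nat.cast_zero] at this
      rw [map_zero, Finsupp.zero_apply]
      rcases mul_eq_zero.mp this.symm with h | h
      · exact absurd h hpz
      · exact h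
    rw [hmk] at h5
    obtain ⟨k, hk⟩ := hTz x h5
    simp only [h4, ZMod.val_zero, zero_smul, Finset.sum_const_zero, add_zero] at hx
    rw [hk, smul_smul, ← natCast_zsmul, ← sub_eq_zero, ← sub_smul] at hx
    obtain ⟨j, hj⟩ := hz2 _ hx
    have h6 : c 0 = 0 := val_zero p (c 0) (j + k) (by linarith)
    funext l
    refine Fin.cases ?_ ?_ l
    · exact h6
    · exact h4
  · intro a
    have h1 : a - ∑ i, b.repr (T.mkQ a) i • g i ∈ T := by
      rw [← hmk, map_sub, map_sum]
      simp only [map_smul, hg]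
      rw [b.sum_repr, sub_self]
    obtain ⟨k, hk⟩ := hTz _ h1
    obtain ⟨k', hk'⟩ := even_val p k
    choose m' hm' using fun i => even_val p (b.repr (T.mkQ a) i)
    refine ⟨Fin.cons ((-k : ℤ) : ZMod p) (fun i => ((-(b.repr (T.mkQ a) i) : ℤ) : ZMod p)),
      k' • z + ∑ i, m' i • g i, ?_⟩
    rw [Fin.sum_univ_succ]
    simp only [Fin.cons_zero, Fin.cons_succ]
    have e1 : (((-k : ℤ) : ZMod p)).val • z = (p * k' - k : ℤ) • z := by
      rw [← natCast_zsmul]
      congr 1
      linarith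
    have e2 : ∀ i, (((-(b.repr (T.mkQ a) i) : ℤ) : ZMod p)).val • g i =
        (p * m' i - b.repr (T.mkQ a) i : ℤ) • g i := by
      intro i
      rw [← natCast_zsmul]
      congr 1
      linarith [hm' i]
    rw [e1, Finset.sum_congr rfl (fun i _ => e2 i)]
    simp only [sub_smul, Finset.sum_sub_distrib, mul_smul]
    have h2 : a = k • z + ∑ i, b.repr (T.mkQ a) i • g i := by
      rw [← hk]
      abel
    generalize ∑ i, b.repr (T.mkQ a) i • g i = W at *
    have h3 : ∑ i, (p : ℤ) • m' i • g i = (p : ℤ) • ∑ i, m' i • g i :=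
      Finset.sum_zsmul _ _ _
    rw [h2, h3, zsmul_add]
    abel

theorem su : S_SU := by
  intro p hp F _ _ ζ hζ
  obtain ⟨y0, hy0⟩ := exists_good F
  refine ⟨y0, fun y hy => ?_⟩
  have hG := hy0 y hy
  refine ⟨exists_gen y hG, exists_adj p y hG, ?_⟩
  obtain ⟨f, U, hf, hU1, hU2⟩ := exists_basis (F := F) p ζ hζ y
  refine ⟨f, fun l => (((U l).toMul : Fˣ) : F), by omega, ?_, ?_, ?_⟩
  · intro l
    exact ⟨Units.ne_zero _, (U l).toMul.2⟩
  · intro c hc
    rw [mon_eq] at hc
    obtain ⟨x, hx⟩ := hc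
    have hx0 : x ≠ 0 := by
      rintro rfl
      rw [zero_pow hp.out.ne_zero] at hx
      exact Units.ne_zero _ hx
    have hxG : Units.mk0 x hx0 ∈ GS F y := by
      intro v hv
      rw [Units.val_mk0]
      have h1 := (∑ l, (c l).val • U l).toMul.2 v hv
      rw [hx, map_pow] at h1
      exact (pow_eq_one_iff.1 h1).resolve_right hp.out.ne_zero
    apply hU1 c (Additive.ofMul ⟨Units.mk0 x hx0, hxG⟩)
    apply Additive.toMul.injective
    apply Subtype.ext
    apply Units.ext
    rw [hx, toMul_zsmul, Subgroup.coe_zpow, Units.val_zpow_eq_zpow_val, zpow_natCast]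
    rfl
  · intro a ha hev
    obtain ⟨x, hx0, hx⟩ := exists_adj p y hG a ha hev
    have ha2 : a * x ^ p ≠ 0 := mul_ne_zero ha (pow_ne_zero _ hx0)
    obtain ⟨c, w, hw⟩ := hU2 (Additive.ofMul ⟨Units.mk0 (a * x ^ p) ha2, fun v hv => hx v hv⟩)
    refine ⟨c, ?_⟩
    rw [mon_eq]
    have h1 := congrArg (fun z : Additive (GS F y) => ((z.toMul : Fˣ) : F)) hw
    simp only [toMul_add, toMul_zsmul, Subgroup.coe_mul, Units.val_mul, toMul_ofMul, Units.val_mk0,
      zpow_natCast, Subgroup.coe_pow, Units.val_pow_eq_pow_val] at h1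
    refine ⟨((w.toMul : Fˣ) : F) / x, ?_⟩
    have hxp : x ^ p ≠ 0 := pow_ne_zero _ hx0
    rw [div_pow, ← h1]
    field_simp

end Pool.Agent.Q277.LK.SU
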